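import Mathlib
import Pool.Agent.H379Z.RB.Hard
import Pool.Agent.H379Z.RB.Mem

/-!
# The unweighted red-blue `s`-`t` cut problem in undirected graphs is NP-complete

Complexity notions are those of `Pool.Agent.NPC.Defs`: polynomial time is the polynomial time of
the Turing machines of Mathlib on bit strings, `NP` is defined by certificates, hardness is under
polynomial-time many-one reductions, and data (numbers in binary, pairs, lists) are coded by bit
strings.

The reduction is from the clique problem.  Given a graph `(V, E)` and `k`, subdivide every edge
by a new vertex joined to `s` (these three edges are red) and join every vertex of `V` to `t` by a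
blue edge.  A cut that keeps the set `U` of vertices of `V` on the side of `s` contains `|U|` blue
edges and, at best, one red edge for every edge of `E` that is not inside `U`.
-/

namespace Pool.Agent.Results.MP_ad21dd_lc.ANPComplete

open Pool.Agent.NPC Pool.Agent.H379Z.RB

/-- The unweighted red-blue `s`-`t` cut problem in finite simple undirected graphs is in `NP` and
is `NP`-hard under polynomial-time many-one reductions. -/
theorem result : InNPP RedBlueCut ∧ NPHardP RedBlueCut :=
  ⟨inNP_redBlueCut, npHard_redBlueCut⟩

end Pool.Agent.Results.MP_ad21dd_lc.ANPComplete
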